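import Pool.Agent.W207.SW.SpecS

/-!
# Sparse windows: the tasks for even functions

`E` is a function on `(0,∞)` of at most linear growth whose even extension has the spectral gap
`(-Λ, Λ)`; it is shown to vanish as soon as it is one-sided, up to an exponentially small error, on
`(R, (1+δ)R)` for a sequence `R → ∞`.
-/

set_option autoImplicit false

open Complex Filter Topology Set MeasureTheory
open scoped BigOperators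

namespace W207.SW

open W207.PR (Tst ct dt)

/-- the spectral gap `(-Λ, Λ)` of the even extension of `E` -/
def GapE (E : ℝ → ℝ) (Λ : ℝ) : Prop := ∀ ψ : ℝ → ℝ, TstL Λ ψ → ∫ u in Ioi (0 : ℝ), ct ψ u * E u = 0

/-- `E` is small in the mean on `(R, (1+δ)R)` -/
def HoleE (E : ℝ → ℝ) (R δ ε C : ℝ) : Prop :=
  ∫ u in Ioo R ((1 + δ) * R), |E u| ≤ C * Real.exp (-(ε * R))

/-- the gap for band-limited test functions -/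
def S_EXTE : Prop := ∀ (E h : ℝ → ℝ) (C0 Λ a K : ℝ), Gr E C0 → GapE E Λ → 0 < a → a < Λ → BL a h →
  (∀ u, |h u| ≤ K / (1 + |u|) ^ 3) → ∫ u in Ioi (0 : ℝ), h u * E u = 0

/-- from one-sided to small in the mean -/
def S_ONEE : Prop := ∀ C0 C δ ε Λ : ℝ, 0 < C0 → 0 < C → 0 < δ → 0 < ε → 0 < Λ →
  ∃ C' ε' R1 : ℝ, 0 < C' ∧ 0 < ε' ∧ 0 < R1 ∧ ∀ E : ℝ → ℝ, Gr E C0 → GapE E Λ →
  ∀ R σ : ℝ, R1 ≤ R → (σ = 1 ∨ σ = -1) →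
  (∀ᵐ u ∂(volume.restrict (Ioo R ((1 + δ) * R))), -(C * Real.exp (-(ε * R))) ≤ σ * E u) →
  ∫ u in Ioo ((1 + δ / 3) * R) ((1 + 2 * δ / 3) * R), |E u| ≤ C' * Real.exp (-(ε' * R))

/-- the transform of the part of `E` below `R` -/
noncomputable def ffe (E : ℝ → ℝ) (R ξ : ℝ) : ℝ :=
  ∫ u in (0 : ℝ)..R, E u * Real.cos (2 * Real.pi * ξ * u)

/-- it is small inside the gap -/
def S_SMLE : Prop :=
  ∀ C0 C δ ε Λ : ℝ, 0 < C0 → 0 < C → 0 < δ → 0 < ε → 0 < Λ → ∃ (K κ : ℝ) (n : ℕ), 0 < K ∧ 0 < κ ∧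
  ∀ (E : ℝ → ℝ) (R : ℝ), Gr E C0 → GapE E Λ → 1 ≤ R → HoleE E R δ ε C → ∀ ξ : ℝ, |ξ| < Λ →
    |ffe E R ξ| ≤ K * (1 + R) ^ n * Real.exp (-(κ * (Λ - |ξ|) * R))

/-- the complex version of `ffe` -/
noncomputable def fe (E : ℝ → ℝ) (R : ℝ) (z : ℂ) : ℂ :=
  ∫ u in (0 : ℝ)..R, ((E u : ℝ) : ℂ) * Complex.cos (2 * Real.pi * z * u)

/-- elementary properties -/
def S_FFE : Prop := ∀ C0 : ℝ, 0 < C0 → ∃ K : ℝ, 0 < K ∧ ∀ (E : ℝ → ℝ) (R : ℝ), Gr E C0 → 1 ≤ R →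
  Differentiable ℂ (fe E R) ∧
  (∀ z, ‖fe E R z‖ ≤ K * (1 + R) ^ 2 * (1 + ‖z‖) * Real.exp (2 * Real.pi * R * |z.im|)) ∧
  (∀ x : ℝ, fe E R x = (ffe E R x : ℂ)) ∧
  ∀ (ψ : ℝ → ℝ) (Λ : ℝ), TstL Λ ψ → ∫ u in (0 : ℝ)..R, ct ψ u * E u = ∫ ξ : ℝ, ψ ξ * ffe E R ξ

/-- the gap extends -/
def S_FEXTE : Prop := ∀ C0 C δ ε Λ : ℝ, 0 < C0 → 0 < C → 0 < δ → 0 < ε → 0 < Λ → ∃ r : ℝ, 0 < r ∧
  ∀ E : ℝ → ℝ, Gr E C0 → GapE E Λ → (∀ A : ℝ, ∃ R : ℝ, A ≤ R ∧ HoleE E R δ ε C) → GapE E (Λ + r)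

/-- all gaps -/
def S_ALLE : Prop := ∀ (E : ℝ → ℝ) (C0 : ℝ), Gr E C0 → (∀ Λ : ℝ, 0 < Λ → GapE E Λ) →
  ∀ᵐ u ∂(volume.restrict (Ioi (0 : ℝ))), E u = 0

/-- the uniqueness theorem for even functions -/
def S_SPARSEE : Prop := ∀ (E : ℝ → ℝ) (C0 C δ ε Λ : ℝ), 0 < Λ → Gr E C0 → GapE E Λ → 0 < C → 0 < δ →
  0 < ε → (∀ A : ℝ, ∃ R σ : ℝ, A ≤ R ∧ (σ = 1 ∨ σ = -1) ∧
    ∀ᵐ u ∂(volume.restrict (Ioo R ((1 + δ) * R))), -(C * Real.exp (-(ε * R))) ≤ σ * E u) →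
  ∀ᵐ u ∂(volume.restrict (Ioi (0 : ℝ))), E u = 0

/-- odd functions give even ones -/
def S_ODDK : Prop := ∀ (O : ℝ → ℝ) (C0 Λ : ℝ), Gr O C0 → Gap O Λ → 0 < Λ →
  GapE (fun u => O u * (Real.sin (Real.pi * (Λ / 2) * u) ^ 2 / u)) (Λ / 2)

end W207.SW
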