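import Pool.Agent.W207.SW.CoreS
import Pool.Agent.W207.SW.SpecE

/-! # Sparse windows: the abstract cores (even version) -/

set_option autoImplicit false

open Complex Filter Topology Set MeasureTheory
open scoped BigOperators

namespace W207.SW

open W207.PR W207.PU

/-- the odd kernel -/
noncomputable def kk (u : ℝ) : ℝ := Real.sin (Real.pi * (1 / 2) * u) ^ 2 / u

lemma kk_nonneg {u : ℝ} (hu : 0 < u) : 0 ≤ kk u := by
  unfold kk; positivity

lemma kk_le_one {u : ℝ} (hu : 1 ≤ u) : kk u ≤ 1 := by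
  unfold kk
  rw [div_le_one (by linarith)]
  have h := Real.sin_sq_le_one (Real.pi * (1 / 2) * u)
  linarith

lemma kk_le {u : ℝ} (hu : 0 < u) : |kk u| ≤ 3 := by
  rw [abs_of_nonneg (kk_nonneg hu)]
  rcases le_or_gt 1 u with h | h
  · linarith [kk_le_one h]
  · unfold kk
    rw [div_le_iff₀ hu]
    have h1 : |Real.sin (Real.pi * (1 / 2) * u)| ≤ |Real.pi * (1 / 2) * u| := Real.abs_sin_le_abs
    have h2 : Real.sin (Real.pi * (1 / 2) * u) ^ 2 ≤ (Real.pi * (1 / 2) * u) ^ 2 := sq_le_sq.2 h1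
    have hpi : Real.pi ≤ 3.15 := by linarith [Real.pi_lt_d2]
    have hpi0 := Real.pi_pos
    calc Real.sin (Real.pi * (1 / 2) * u) ^ 2 ≤ (Real.pi * (1 / 2) * u) ^ 2 := h2
      _ = Real.pi ^ 2 / 4 * (u * u) := by ring
      _ ≤ 3 * (1 * u) := by
        have : Real.pi ^ 2 / 4 ≤ 3 := by nlinarith
        have h3 : u * u ≤ 1 * u := mul_le_mul_of_nonneg_right h.le hu.le
        have h4 : 0 ≤ u * u := by positivity
        nlinarith
      _ = 3 * u := by ring

lemma kk_ae : ∀ᵐ u ∂(volume.restrict (Ioi (0 : ℝ))), kk u ≠ 0 := by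
  have hc : Set.Countable (Set.range (fun n : ℤ => 2 * (n : ℝ))) := Set.countable_range _
  have h1 : ∀ᵐ u : ℝ, u ∉ Set.range (fun n : ℤ => 2 * (n : ℝ)) := by
    rw [ae_iff]
    simp only [not_not]
    exact hc.measure_zero _
  filter_upwards [ae_restrict_of_ae h1, ae_restrict_mem measurableSet_Ioi] with u g1 g2
  have hu : (0 : ℝ) < u := g2
  intro h
  unfold kk at h
  rcases div_eq_zero_iff.1 h with h | h
  · have h3 : Real.sin (Real.pi * (1 / 2) * u) = 0 := by
      exact pow_eq_zero_iff (two_ne_zero) |>.1 h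
    rw [Real.sin_eq_zero_iff] at h3
    obtain ⟨n, hn⟩ := h3
    apply g1
    refine ⟨n, ?_⟩
    have hpi := Real.pi_ne_zero
    have h4 : Real.pi * (n : ℝ) = Real.pi * (1 / 2 * u) := by linarith
    have h5 := mul_left_cancel₀ hpi h4
    show 2 * (n : ℝ) = u
    rw [h5]; ring
  · linarith

/-- **the abstract core, cumulative form** -/
theorem core4G (hHELLY : S_HELLY) (hDEC : S_DEC) (hSP : S_SPARSEE) (hOK : S_ODDK)
    {g : ℝ → ℝ} {C1 : ℝ} (hg : MT g C1) {F : ℕ → ℝ → ℝ} {C0 : ℝ} (h : SeqG g F C0)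
    {C δ ε : ℝ} (hC : 0 < C) (hδ : 0 < δ) (hε : 0 < ε)
    (hwin : ∀ A : ℝ, ∃ R σ : ℝ, A ≤ R ∧ (σ = 1 ∨ σ = -1) ∧ ∀ u : ℝ, R < u →
      u < (1 + δ) * R → ∀ η : ℝ, 0 < η → ∀ᶠ j in atTop,
        -(C * Real.exp (-(ε * R)) + η) ≤ σ * (F j u - g u)) :
    ∀ u : ℝ, 0 < u → Tendsto (fun j => F j u) atTop (𝓝 (g u)) := by
  intro u0 hu0
  apply tendsto_of_subseq_tendsto
  intro ns hns
  have hF := h.sub hns
  obtain ⟨φ, Q, hφ, hQ, hlim, hm, hb, ho⟩ := limitG hHELLY hDEC hg hF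
  refine ⟨φ, ?_⟩
  apply concludeG hg (F := fun j => F (ns j)) hQ hlim _ u0 hu0
  have hcnt : Set.Countable {u | ¬ ContinuousAt Q u} := hQ.countable_not_continuousAt
  have hcae : ∀ᵐ u : ℝ, ContinuousAt Q u := by
    rw [ae_iff]
    exact hcnt.measure_zero _
  have hpos : ∀ᵐ u ∂(volume.restrict (Ioi (0 : ℝ))), 0 < u := ae_restrict_mem measurableSet_Ioi
  have hGap : Gap (fun u => Q u - g u) 1 := fun ψ hψ => ho ψ (tstL_one hψ)
  have hE := hOK (fun u => Q u - g u) (C0 + C1) 1 ⟨hm, hb⟩ hGap one_pos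
  have hkm : Measurable kk := by
    unfold kk
    exact ((Real.continuous_sin.comp (continuous_const.mul continuous_id)).measurable.pow_const 2).div
      measurable_id
  have hEg : Gr (fun u => (Q u - g u) * (Real.sin (Real.pi * (1 / 2) * u) ^ 2 / u))
      (3 * (C0 + C1)) := by
    refine ⟨hm.mul hkm, ?_⟩
    filter_upwards [hb, hpos] with u g1 g2
    have g3 := kk_le g2
    have e : |(Q u - g u) * (Real.sin (Real.pi * (1 / 2) * u) ^ 2 / u)| = |Q u - g u| * |kk u| :=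
      abs_mul _ _
    rw [e]
    calc |Q u - g u| * |kk u| ≤ ((C0 + C1) * (1 + u)) * 3 :=
          mul_le_mul g1 g3 (abs_nonneg _) ((abs_nonneg _).trans g1)
      _ = _ := by ring
  have h0 := hSP _ (3 * (C0 + C1)) C δ ε (1 / 2) (by norm_num) hEg hE hC hδ hε (by
    intro A
    obtain ⟨R, σ, hR, hσ, hw⟩ := hwin (max A 1)
    have hR1 : 1 ≤ R := (le_max_right _ _).trans hR
    refine ⟨R, σ, (le_max_left _ _).trans hR, hσ, ?_⟩
    filter_upwards [ae_restrict_of_ae hcae, ae_restrict_mem measurableSet_Ioo] with u g1 g2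
    have h4 : Tendsto (fun j => σ * (F (ns (φ j)) u - g u)) atTop (𝓝 (σ * (Q u - g u))) :=
      ((hlim u g1).sub_const _).const_mul _
    have h5 : -(C * Real.exp (-(ε * R))) ≤ σ * (Q u - g u) := by
      apply le_of_forall_pos_sub_le
      intro η hη
      have h6 : -(C * Real.exp (-(ε * R)) + η) ≤ σ * (Q u - g u) :=
        ge_of_tendsto h4 ((hns.comp hφ.tendsto_atTop).eventually (hw u g2.1 g2.2 η hη))
      linarith
    have hu1 : 1 ≤ u := hR1.trans g2.1.le
    have hk0 := kk_nonneg (show 0 < u by linarith)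
    have hk1 := kk_le_one hu1
    have he : 0 ≤ C * Real.exp (-(ε * R)) := by positivity
    show _ ≤ σ * ((Q u - g u) * kk u)
    nlinarith [mul_le_mul_of_nonneg_right h5 hk0, mul_nonneg he (sub_nonneg.2 hk1)])
  filter_upwards [h0, kk_ae] with u g1 g2
  exact (mul_eq_zero.1 g1).resolve_right g2

/-- one-sided bound for the window `[a, a+ℓ]` of all limit functions -/
def LimA (g : ℝ → ℝ) (F : ℕ → ℝ → ℝ) (ℓ σ κ a : ℝ) : Prop :=
  ∀ θ : ℕ → ℕ, Tendsto θ atTop atTop → ∀ Q : ℝ → ℝ, Monotone Q →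
    (∀ u, ContinuousAt Q u → Tendsto (fun j => F (θ j) u) atTop (𝓝 (Q u))) →
    ContinuousAt Q a → ContinuousAt Q (a + ℓ) →
      -κ ≤ σ * ((Q (a + ℓ) - g (a + ℓ)) - (Q a - g a))

/-- from upper bounds -/
lemma limA_upper {g : ℝ → ℝ} {F : ℕ → ℝ → ℝ} {ℓ κ a : ℝ}
    (h : ∀ ε : ℝ, 0 < ε → ∀ᶠ j in atTop, F j (a + ℓ) - F j a ≤ (g (a + ℓ) - g a) + (κ + ε)) :
    LimA g F ℓ (-1) κ a := by
  intro θ hθ Q hQ hlim hca hcb
  have h3 : Tendsto (fun j => F (θ j) (a + ℓ) - F (θ j) a) atTop (𝓝 (Q (a + ℓ) - Q a)) :=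
    (hlim _ hcb).sub (hlim _ hca)
  have h4 : Q (a + ℓ) - Q a ≤ (g (a + ℓ) - g a) + κ := by
    apply le_of_forall_pos_sub_le
    intro ε hε
    have h5 : Q (a + ℓ) - Q a ≤ (g (a + ℓ) - g a) + (κ + ε) :=
      le_of_tendsto h3 (hθ.eventually (h ε hε))
    linarith
  linarith

/-- from lower bounds for closed windows -/
lemma limA_lower {g : ℝ → ℝ} {F : ℕ → ℝ → ℝ} {ℓ κ a : ℝ}
    (h : ∀ δ : ℝ, 0 < δ → ∀ ε : ℝ, 0 < ε → ∀ᶠ j in atTop,
      (g (a + ℓ) - g a) - (κ + ε) ≤ F j (a + ℓ) - F j (a - δ)) :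
    LimA g F ℓ 1 κ a := by
  intro θ hθ Q hQ hlim hca hcb
  have hcnt : Set.Countable {u | ¬ ContinuousAt Q u} := hQ.countable_not_continuousAt
  have hdense : Dense {u | ContinuousAt Q u} := by
    have : {u | ContinuousAt Q u} = {u | ¬ ContinuousAt Q u}ᶜ := by
      ext u; simp
    rw [this]
    exact hcnt.dense_compl ℝ
  have h4 : ∀ ε : ℝ, 0 < ε → (g (a + ℓ) - g a) - (κ + ε) ≤ Q (a + ℓ) - Q a := by
    intro ε hε
    obtain ⟨r, hr, hball⟩ := Metric.continuousAt_iff.1 hca (ε / 2) (by positivity)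
    obtain ⟨b, hb1, hb2⟩ := hdense.exists_mem_open isOpen_Ioo
      (show (Ioo (a - r) a).Nonempty from ⟨a - r / 2, by constructor <;> linarith⟩)
    have hδ : 0 < a - b := by linarith [hb2.2]
    have h5 := h (a - b) hδ (ε / 2) (by positivity)
    rw [show a - (a - b) = b by ring] at h5
    have h3 : Tendsto (fun j => F (θ j) (a + ℓ) - F (θ j) b) atTop (𝓝 (Q (a + ℓ) - Q b)) :=
      (hlim _ hcb).sub (hlim _ hb1)
    have h6 := ge_of_tendsto h3 (hθ.eventually h5)
    have h7 : dist (Q b) (Q a) < ε / 2 := hball (by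
      rw [Real.dist_eq, abs_sub_comm, abs_of_pos hδ]; linarith [hb2.1])
    rw [Real.dist_eq] at h7
    have h8 := (abs_lt.1 h7).1
    linarith
  have h5 : (g (a + ℓ) - g a) - κ ≤ Q (a + ℓ) - Q a := by
    apply le_of_forall_pos_sub_le
    intro ε hε
    have := h4 ε hε
    linarith
  linarith

/-- **the abstract core, windows of fixed lengths at sparse places** -/
theorem core5G (hHELLY : S_HELLY) (hDEC : S_DEC) (hSP : S_SPARSEE)
    (hSHIFT : S_SHIFT) (hDIFF : S_DIFF) (hDENSE : S_DENSE)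
    {g : ℝ → ℝ} {C1 : ℝ} (hg : MT g C1) {F : ℕ → ℝ → ℝ} {C0 : ℝ} (h : SeqG g F C0) (L : Set ℝ)
    (hL : ∀ ℓ ∈ L, 0 < ℓ) (hdense : Dense (AddSubgroup.closure L : Set ℝ))
    (hwin : ∀ ℓ ∈ L, ∃ C δ ε : ℝ, 0 < C ∧ 0 < δ ∧ 0 < ε ∧ ∀ A : ℝ, ∃ R σ : ℝ, A ≤ R ∧
      (σ = 1 ∨ σ = -1) ∧ ∀ a : ℝ, R < a → a < (1 + δ) * R →
        LimA g F ℓ σ (C * Real.exp (-(ε * R))) a) :
    ∀ u : ℝ, 0 < u → Tendsto (fun j => F j u) atTop (𝓝 (g u)) := by
  intro u0 hu0
  apply tendsto_of_subseq_tendsto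
  intro ns hns
  have hF := h.sub hns
  obtain ⟨φ, Q, hφ, hQ, hlim, hm, hb, ho⟩ := limitG hHELLY hDEC hg hF
  refine ⟨φ, ?_⟩
  apply concludeG hg (F := fun j => F (ns j)) hQ hlim _ u0 hu0
  have hC0 : 0 ≤ C0 := by
    have := h.bd 0 0
    simp at this
    exact (abs_nonneg _).trans this
  have hC1 : 0 ≤ C1 := by
    have := hg.bd 0 le_rfl
    simp at this
    exact (abs_nonneg _).trans this
  have hcnt : Set.Countable {u | ¬ ContinuousAt Q u} := hQ.countable_not_continuousAt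
  have hcae : ∀ᵐ u : ℝ, ContinuousAt Q u := by
    rw [ae_iff]
    exact hcnt.measure_zero _
  have hpos : ∀ᵐ u ∂(volume.restrict (Ioi (0 : ℝ))), 0 < u := ae_restrict_mem measurableSet_Ioi
  set O := oeG g Q with hO
  have hOm : Measurable O := oeG_meas hg.cont hQ
  have hOodd : ∀ u, O (-u) = -O u := oeG_odd g Q
  have hOb : ∀ᵐ u : ℝ, |O u| ≤ (C0 + C1) * (1 + |u|) := by
    have h1 : ∀ᵐ u ∂(volume.restrict (Ioi (0 : ℝ))), |O u| ≤ (C0 + C1) * (1 + |u|) := by
      filter_upwards [hb, hpos] with u g1 g2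
      rw [hO, oeG_pos g2, abs_of_pos g2]
      exact g1
    refine ae_real h1 ?_
    filter_upwards [h1] with u g1
    rw [hOodd, abs_neg, abs_neg]
    exact g1
  have hOo : ∀ ψ, Tst ψ → ∫ u in Ioi (0 : ℝ), dt ψ u * O u = 0 := by
    intro ψ hψ
    have hfun : Set.EqOn (fun u => dt ψ u * O u) (fun u => dt ψ u * (Q u - g u))
        (Ioi (0 : ℝ)) := by
      intro u hu
      show dt ψ u * O u = dt ψ u * (Q u - g u)
      rw [hO, oeG_pos hu]
    rw [setIntegral_congr_fun measurableSet_Ioi hfun]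
    exact ho ψ hψ
  -- the periods
  have hper : ∀ ℓ ∈ L, ∀ᵐ u : ℝ, O (u + ℓ) = O u := by
    intro ℓ hℓ
    have hℓ0 := hL ℓ hℓ
    obtain ⟨C, δ, ε, hC, hδ, hε, hw⟩ := hwin ℓ hℓ
    set s : ℝ := ℓ / 2 with hs
    have hs0 : 0 < s := by positivity
    set E : ℝ → ℝ := fun v => O (v + s) - O (v - s) with hE
    have hEm : Measurable E := (hOm.comp (measurable_add_const s)).sub
      (hOm.comp (measurable_sub_const s))
    have hEe : ∀ v, E (-v) = E v := by
      intro v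
      show O (-v + s) - O (-v - s) = O (v + s) - O (v - s)
      rw [show -v + s = -(v - s) by ring, show -v - s = -(v + s) by ring, hOodd, hOodd]
      ring
    have htr : ∀ (p : ℝ → Prop), (∀ᵐ u : ℝ, p u) → ∀ t : ℝ, ∀ᵐ v : ℝ, p (v + t) := fun p hp t =>
      (measurePreserving_add_right volume t).quasiMeasurePreserving.ae hp
    have hEb : ∀ᵐ v ∂(volume.restrict (Ioi (0 : ℝ))), |E v| ≤ 2 * (C0 + C1) * (1 + s) * (1 + v) := by
      filter_upwards [ae_restrict_of_ae (htr _ hOb s), ae_restrict_of_ae (htr _ hOb (-s)), hpos]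
        with v g1 g2 g3
      have e1 : |v + s| ≤ v + s := by rw [abs_of_pos (by linarith)]
      have e2 : |v + -s| ≤ v + s := by
        rw [abs_le]; constructor <;> linarith
      have e3 : |E v| ≤ |O (v + s)| + |O (v + -s)| := by
        show |O (v + s) - O (v - s)| ≤ _
        rw [sub_eq_add_neg v s]
        exact abs_sub _ _
      have e4 : (C0 + C1) * (1 + |v + s|) ≤ (C0 + C1) * ((1 + s) * (1 + v)) := by
        apply mul_le_mul_of_nonneg_left _ (by linarith)
        nlinarith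
      have e5 : (C0 + C1) * (1 + |v + -s|) ≤ (C0 + C1) * ((1 + s) * (1 + v)) := by
        apply mul_le_mul_of_nonneg_left _ (by linarith)
        nlinarith
      calc |E v| ≤ (C0 + C1) * ((1 + s) * (1 + v)) + (C0 + C1) * ((1 + s) * (1 + v)) := by linarith
        _ = _ := by ring
    have hEo : GapE E 1 := by
      intro ψ hψ
      exact hDIFF hDEC hSHIFT O hOm hOodd (C0 + C1) hOb hOo s hs0 ψ (tstL_one hψ)
    have h0 := hSP E (2 * (C0 + C1) * (1 + s)) (C * Real.exp (ε * s)) (δ / 2) ε 1 one_pos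
      ⟨hEm, hEb⟩ hEo (by positivity) (by positivity) hε (by
        intro A
        obtain ⟨R, σ, hR, hσ, hwR⟩ := hw (max A (s + 1))
        have hRs : s + 1 ≤ R := (le_max_right _ _).trans hR
        have hR0 : 0 < R := by linarith
        refine ⟨R + s, σ, by linarith [(le_max_left A (s + 1)).trans hR], hσ, ?_⟩
        filter_upwards [ae_restrict_of_ae (htr _ hcae s), ae_restrict_of_ae (htr _ hcae (-s)),
          ae_restrict_mem measurableSet_Ioo] with v g1 g2 g3
        set a : ℝ := v + -s with ha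
        have ha1 : R < a := by rw [ha]; linarith [g3.1]
        have ha2 : a < (1 + δ) * R := by
          rw [ha]
          have := g3.2
          nlinarith
        have ha0 : 0 < a := by linarith
        have hal : a + ℓ = v + s := by rw [ha, hs]; ring
        have hca : ContinuousAt Q a := g2
        have hcb : ContinuousAt Q (a + ℓ) := by rw [hal]; exact g1
        have h5 := hwR a ha1 ha2 (fun j => ns (φ j)) (hns.comp hφ.tendsto_atTop) Q hQ hlim hca hcb
        have h7 : E v = (Q (a + ℓ) - g (a + ℓ)) - (Q a - g a) := by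
          show O (v + s) - O (v - s) = _
          rw [sub_eq_add_neg v s, ← hal, ← ha, hO, oeG_pos ha0, oeG_pos (by linarith)]
        rw [h7]
        refine le_trans (le_of_eq ?_) h5
        rw [mul_assoc, ← Real.exp_add]
        congr 3
        ring)
    have h2 : ∀ᵐ v : ℝ, E v = 0 := by
      refine ae_real h0 ?_
      filter_upwards [h0] with v g
      rw [hEe]; exact g
    have h3 := htr _ h2 s
    filter_upwards [h3] with u g
    have g' : O (u + s + s) - O (u + s - s) = 0 := g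
    rw [show u + s + s = u + ℓ by rw [hs]; ring, show u + s - s = u by ring] at g'
    linarith
  have hfin := hDENSE O Q g hOodd hQ hg.cont (fun u hu => by rw [hO, oeG_pos hu]) L hdense hper
  filter_upwards [hpos] with u hu
  rw [hfin u hu, sub_self]

end W207.SW
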