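import Pool.Agent.W207.PR.A0

/-!
# Sparse windows: the analytic tasks

`O` is a function on `(0,∞)` of at most linear growth whose derivative has a spectral gap; it is shown
to vanish as soon as it is monotone, up to an exponentially small error, on `(R, (1+δ)R)` for a sequence
`R → ∞`.
-/

set_option autoImplicit false

open Complex Filter Topology Set MeasureTheory
open scoped BigOperators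

namespace W207.SW

open W207.PR (Tst ct dt)

/-- test functions supported in `[-μ, μ]` for a `μ < Λ` -/
structure TstL (Λ : ℝ) (ψ : ℝ → ℝ) : Prop where
  smooth : ∀ n : ℕ, ContDiff ℝ n ψ
  even : ∀ x, ψ (-x) = ψ x
  supp : ∃ μ : ℝ, 0 < μ ∧ μ < Λ ∧ ∀ x, μ ≤ |x| → ψ x = 0

/-- the spectral gap `(-Λ, Λ)` -/
def Gap (O : ℝ → ℝ) (Λ : ℝ) : Prop := ∀ ψ : ℝ → ℝ, TstL Λ ψ → ∫ u in Ioi (0 : ℝ), dt ψ u * O u = 0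

/-- linear growth -/
def Gr (O : ℝ → ℝ) (C0 : ℝ) : Prop :=
  Measurable O ∧ ∀ᵐ u ∂(volume.restrict (Ioi (0 : ℝ))), |O u| ≤ C0 * (1 + u)

/-- band-limited functions -/
def BL (lam : ℝ) (h : ℝ → ℝ) : Prop := ∃ p : ℝ → ℝ, Continuous p ∧ (∀ x, p (-x) = p x) ∧
  (∀ x, lam ≤ |x| → p x = 0) ∧ ∀ u, h u = ct p u

/-- `O` is nearly constant on `(R, (1+δ)R)` -/
def Hole (O : ℝ → ℝ) (c R δ ε C : ℝ) : Prop := |c| ≤ C * (1 + R) ∧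
  ∀ᵐ u ∂(volume.restrict (Ioo R ((1 + δ) * R))), |O u - c| ≤ C * Real.exp (-(ε * R))

/-! ### Band-limited kernels -/

/-- triangle -/
def S_BLT : Prop := ∀ θ : ℝ, 0 < θ → BL θ (fun u => Real.sinc (Real.pi * θ * u) ^ 2)

/-- products -/
def S_BLM : Prop := ∀ (a b : ℝ) (f h : ℝ → ℝ), 0 < a → 0 < b → BL a f → BL b h →
  BL (a + b) (fun u => f u * h u)

/-- modulation -/
def S_BLC : Prop := ∀ (a ξ : ℝ) (h : ℝ → ℝ), 0 < a → BL a h →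
  BL (a + |ξ|) (fun u => h u * Real.cos (2 * Real.pi * ξ * u))

/-- averages -/
def S_BLI : Prop := ∀ (a x y : ℝ) (h : ℝ → ℝ), 0 < a → x ≤ y → BL a h →
  BL a (fun u => ∫ s in x..y, (h (u - s) + h (u + s)))

/-- the kernel -/
def S_KB : Prop := ∀ Λ : ℝ, 0 < Λ → ∃ K : ℝ, 0 < K ∧ ∀ η D : ℝ, 0 < η → η ≤ Λ →
  8 ≤ η * D → ∃ b : ℝ → ℝ, Continuous b ∧ (∀ u, b (-u) = b u) ∧ (∀ u, 0 ≤ b u ∧ b u ≤ K) ∧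
    Integrable b ∧ ∫ u, b u = 1 ∧ BL (η / 2) b ∧
    ∀ u, D ≤ |u| → b u ≤ K * Real.exp (-(η * D / 4)) * (D / |u|) ^ 4

/-- the smooth cut-off -/
def S_KG : Prop := ∀ Λ δ : ℝ, 0 < Λ → 0 < δ →
  ∃ K κ : ℝ, 0 < K ∧ 0 < κ ∧ ∀ η R : ℝ, 0 < η → η ≤ Λ → 1 ≤ R → 16 ≤ η * δ * R →
  ∃ g g' : ℝ → ℝ, BL (η / 2) g ∧ (∀ u, HasDerivAt g (g' u) u) ∧ Continuous g' ∧
    (∀ u, |g u| ≤ K ∧ |g' u| ≤ K) ∧
    (∀ u, 0 ≤ u → u ≤ R → |g u - 1| ≤ K * (1 + R) * Real.exp (-(κ * η * R)) ∧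
      |g' u| ≤ K * (1 + R) * Real.exp (-(κ * η * R))) ∧
    (∀ u, (1 + δ) * R ≤ u → |g u| ≤ K * (1 + R) ^ 5 * Real.exp (-(κ * η * R)) / (1 + u) ^ 3 ∧
      |g' u| ≤ K * (1 + R) ^ 5 * Real.exp (-(κ * η * R)) / (1 + u) ^ 3) ∧
    ∃ K' : ℝ, ∀ u, |g u| ≤ K' / (1 + |u|) ^ 3 ∧ |g' u| ≤ K' / (1 + |u|) ^ 3

/-! ### Consequences of the gap -/

/-- the gap for band-limited test functions -/
def S_EXT : Prop := ∀ (O h h' : ℝ → ℝ) (C0 Λ a K : ℝ), Gr O C0 → Gap O Λ → 0 < a → a < Λ → BL a h →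
  (∀ u, HasDerivAt h (h' u) u) → Continuous h' →
  (∀ u, |h u| ≤ K / (1 + |u|) ^ 3 ∧ |h' u| ≤ K / (1 + |u|) ^ 3) →
  ∫ u in Ioi (0 : ℝ), h' u * O u = 0

/-- from one-sided to two-sided -/
def S_ONE : Prop := ∀ C0 C δ ε : ℝ, 0 < C0 → 0 < C → 0 < δ →
  0 < ε → ∃ C' ε' R1 : ℝ, 0 < C' ∧ 0 < ε' ∧ 0 < R1 ∧ ∀ (O : ℝ → ℝ) (N : Set ℝ), Gr O C0 → Gap O 1 →
  N.Countable → ∀ R σ : ℝ, R1 ≤ R → (σ = 1 ∨ σ = -1) →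
  (∀ u v, u ∉ N → v ∉ N → R < u → u < v → v < (1 + δ) * R →
    -(C * Real.exp (-(ε * R))) ≤ σ * (O v - O u)) →
  ∃ c : ℝ, |c| ≤ C' * (1 + R) ∧ ∀ u, u ∉ N → (1 + δ / 3) * R < u → u < (1 + 2 * δ / 3) * R →
    |O u - c| ≤ C' * Real.exp (-(ε' * R))

/-- the transform of the part of `O` below `R` -/
noncomputable def ffr (O : ℝ → ℝ) (c R ξ : ℝ) : ℝ :=
  c + 2 * Real.pi * ξ * ∫ u in (0 : ℝ)..R, (O u - c) * Real.sin (2 * Real.pi * ξ * u)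

/-- it is small inside the gap -/
def S_SML : Prop :=
  ∀ C0 C δ ε Λ : ℝ, 0 < C0 → 0 < C → 0 < δ → 0 < ε → 0 < Λ → ∃ (K κ : ℝ) (n : ℕ), 0 < K ∧ 0 < κ ∧
  ∀ (O : ℝ → ℝ) (c R : ℝ), Gr O C0 → Gap O Λ → 1 ≤ R → Hole O c R δ ε C → ∀ ξ : ℝ, |ξ| < Λ →
    |ffr O c R ξ| ≤ K * (1 + R) ^ n * Real.exp (-(κ * (Λ - |ξ|) * R))

/-! ### Entire functions that are small on an interval -/

/-- the complex version of `ffr` -/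
noncomputable def ff (O : ℝ → ℝ) (c R : ℝ) (z : ℂ) : ℂ :=
  c + 2 * Real.pi * z * ∫ u in (0 : ℝ)..R, ((O u - c : ℝ) : ℂ) * Complex.sin (2 * Real.pi * z * u)

/-- elementary properties -/
def S_FF : Prop := ∀ C0 C : ℝ, 0 < C0 → 0 < C → ∃ K : ℝ, 0 < K ∧ ∀ (O : ℝ → ℝ) (c R : ℝ), Gr O C0 →
  1 ≤ R → |c| ≤ C * (1 + R) → Differentiable ℂ (ff O c R) ∧
  (∀ z, ‖ff O c R z‖ ≤ K * (1 + R) ^ 2 * (1 + ‖z‖) * Real.exp (2 * Real.pi * R * |z.im|)) ∧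
  (∀ x : ℝ, ff O c R x = (ffr O c R x : ℂ)) ∧
  ∀ (ψ : ℝ → ℝ) (Λ : ℝ), TstL Λ ψ →
    ∫ u in (0 : ℝ)..R, dt ψ u * O u = c * ct ψ R - ∫ ξ : ℝ, ψ ξ * ffr O c R ξ

/-- the harmonic extension of the tent function (real part), on the upper half plane -/
noncomputable def GG (Λ : ℝ) (z : ℂ) : ℂ :=
  (I / Real.pi) * ((z - Λ) * Complex.log (z - Λ) + (z + Λ) * Complex.log (z + Λ) -
    2 * (z * Complex.log z))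

/-- its properties -/
def S_GA : Prop := ∀ Λ : ℝ, 0 < Λ → DifferentiableOn ℂ (GG Λ) {z | 0 < z.im} ∧
  ContinuousOn (GG Λ) {z | 0 ≤ z.im} ∧ (∀ x : ℝ, (GG Λ x).re = max (Λ - |x|) 0) ∧
  (∀ y : ℝ, 0 < y → (GG Λ (y * I)).re ≤ Λ) ∧
  ∃ C : ℝ, 0 < C ∧ ∀ z, ‖GG Λ z‖ ≤ C * (1 + ‖z‖) ^ (3 / 2 : ℝ)

/-- lower bound near `Λ` -/
def S_GB : Prop := ∀ Λ : ℝ, 0 < Λ → ∃ C r : ℝ, 0 < C ∧ 0 < r ∧ ∀ z : ℂ, 0 ≤ z.im → ‖z - Λ‖ ≤ r →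
  z.im / Real.pi * (Real.log (1 / ‖z - Λ‖) - C) ≤ (GG Λ z).re

/-- Phragmen-Lindeloef -/
def S_PL : Prop := ∀ (Λ κ R M : ℝ) (f : ℂ → ℂ), 0 < Λ → 0 < κ → 0 < R → 0 ≤ M →
  Differentiable ℂ f → (∀ z, ‖f z‖ ≤ M * (1 + ‖z‖) * Real.exp (2 * Real.pi * R * |z.im|)) →
  (∀ x : ℝ, |x| < Λ → ‖f x‖ ≤ M * Real.exp (-(κ * (Λ - |x|) * R))) → ∀ z : ℂ, 0 ≤ z.im →
  ‖f z‖ ≤ 2 * M * ‖z + I‖ * Real.exp (2 * Real.pi * R * z.im - κ * R * (GG Λ z).re)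

/-- weighted mean value -/
def S_CIR : Prop := ∀ (L r R M : ℝ) (ξ : ℂ) (f : ℂ → ℂ), 2 ≤ L → 0 < r → 0 < R → 0 ≤ M →
  Differentiable ℂ f → ξ.im = 0 →
  (∀ z, ‖z - ξ‖ = r → ‖f z‖ ≤ M * Real.exp (-(R * L * |z.im|))) →
  ‖f ξ‖ ≤ Real.exp 1 * M * Real.exp (-(R * r))

/-- small on an interval, hence on a longer one -/
def S_PLG : Prop := ∀ Λ κ : ℝ, 0 < Λ → 0 < κ → ∃ r c K : ℝ,
  0 < r ∧ 0 < c ∧ 0 < K ∧ ∀ (R M : ℝ) (f : ℂ → ℂ), 0 < R → 0 ≤ M → Differentiable ℂ f →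
  (∀ z, ‖f z‖ ≤ M * (1 + ‖z‖) * Real.exp (2 * Real.pi * R * |z.im|)) →
  (∀ x : ℝ, |x| < Λ → ‖f x‖ ≤ M * Real.exp (-(κ * (Λ - |x|) * R))) →
  ∀ x : ℝ, |x| ≤ Λ + r → ‖f x‖ ≤ K * M * Real.exp (-(c * R))

/-! ### Conclusion -/

/-- the gap extends -/
def S_FEXT : Prop := ∀ C0 C δ ε Λ : ℝ, 0 < C0 → 0 < C → 0 < δ → 0 < ε → 0 < Λ → ∃ r : ℝ, 0 < r ∧
  ∀ O : ℝ → ℝ, Gr O C0 → Gap O Λ → (∀ A : ℝ, ∃ R c : ℝ, A ≤ R ∧ Hole O c R δ ε C) → Gap O (Λ + r)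

/-- all gaps -/
def S_ALL : Prop := ∀ (O : ℝ → ℝ) (C0 : ℝ), Gr O C0 → (∀ Λ : ℝ, 0 < Λ → Gap O Λ) →
  ∀ᵐ u ∂(volume.restrict (Ioi (0 : ℝ))), O u = 0

/-- the uniqueness theorem -/
def S_SPARSE : Prop := ∀ (O : ℝ → ℝ) (C0 C δ ε : ℝ) (N : Set ℝ), Gr O C0 → Gap O 1 → 0 < C → 0 < δ →
  0 < ε → N.Countable → (∀ A : ℝ, ∃ R σ : ℝ, A ≤ R ∧ (σ = 1 ∨ σ = -1) ∧
    ∀ u v, u ∉ N → v ∉ N → R < u → u < v → v < (1 + δ) * R →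
      -(C * Real.exp (-(ε * R))) ≤ σ * (O v - O u)) →
  ∀ᵐ u ∂(volume.restrict (Ioi (0 : ℝ))), O u = 0

end W207.SW
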