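import Pool.Agent.W207.PU.WinU
import Pool.Agent.W207.SW.SpecS

/-! # Sparse windows: the abstract core and the zeta zeros -/

set_option autoImplicit false

open Complex Filter Topology Set MeasureTheory
open scoped BigOperators

namespace W207.SW

open W207.PR W207.PU

lemma tstL_one {ψ : ℝ → ℝ} (h : TstL 1 ψ) : Tst ψ := ⟨h.smooth, h.even, h.supp⟩

/-- **the abstract core, sparse windows** -/
theorem core3G (hHELLY : S_HELLY) (hDEC : S_DEC) (hSP : S_SPARSE)
    {g : ℝ → ℝ} {C1 : ℝ} (hg : MT g C1) {F : ℕ → ℝ → ℝ} {C0 : ℝ} (h : SeqG g F C0)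
    {C δ ε : ℝ} (hC : 0 < C) (hδ : 0 < δ) (hε : 0 < ε)
    (hwin : ∀ A : ℝ, ∃ R σ : ℝ, A ≤ R ∧ (σ = 1 ∨ σ = -1) ∧ ∀ u v : ℝ, R < u → u < v →
      v < (1 + δ) * R → ∀ η : ℝ, 0 < η → ∀ᶠ j in atTop,
        -(C * Real.exp (-(ε * R)) + η) ≤ σ * ((F j v - g v) - (F j u - g u))) :
    ∀ u : ℝ, 0 < u → Tendsto (fun j => F j u) atTop (𝓝 (g u)) := by
  intro u0 hu0
  apply tendsto_of_subseq_tendsto
  intro ns hns
  have hF := h.sub hns
  obtain ⟨φ, Q, hφ, hQ, hlim, hm, hb, ho⟩ := limitG hHELLY hDEC hg hF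
  refine ⟨φ, ?_⟩
  apply concludeG hg (F := fun j => F (ns j)) hQ hlim _ u0 hu0
  have hcnt : Set.Countable {u | ¬ ContinuousAt Q u} := hQ.countable_not_continuousAt
  apply hSP (fun u => Q u - g u) (C0 + C1) C δ ε {u | ¬ ContinuousAt Q u} ⟨hm, hb⟩
    (fun ψ hψ => ho ψ (tstL_one hψ)) hC hδ hε hcnt
  intro A
  obtain ⟨R, σ, hR, hσ, hw⟩ := hwin A
  refine ⟨R, σ, hR, hσ, fun u v hu hv h1 h2 h3 => ?_⟩
  have hcu : ContinuousAt Q u := not_not.1 hu
  have hcv : ContinuousAt Q v := not_not.1 hv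
  have h4 : Tendsto (fun j => σ * ((F (ns (φ j)) v - g v) - (F (ns (φ j)) u - g u))) atTop
      (𝓝 (σ * ((Q v - g v) - (Q u - g u)))) :=
    (((hlim v hcv).sub_const _).sub ((hlim u hcu).sub_const _)).const_mul _
  apply le_of_forall_pos_sub_le
  intro η hη
  have h5 : -(C * Real.exp (-(ε * R)) + η) ≤ σ * ((Q v - g v) - (Q u - g u)) :=
    ge_of_tendsto h4 ((hns.comp hφ.tendsto_atTop).eventually (hw u v h1 h2 h3 η hη))
  linarith

/-- lower bounds for the windows inside `[R, (1+δ)R]` -/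
def LowW (l : Filter ℝ) (δ ε C R : ℝ) : Prop := ∀ α β : ℝ, R ≤ α → α < β → β ≤ (1 + δ) * R →
  ∀ η : ℝ, 0 < η → ∀ᶠ T in l,
    (gw α β - C * Real.exp (-(ε * R)) - η) * (T * Real.log T / (2 * Real.pi)) ≤ NW T α β

/-- upper bounds for the windows inside `[R, (1+δ)R]` -/
def UppW (l : Filter ℝ) (δ ε C R : ℝ) : Prop := ∀ α β : ℝ, R ≤ α → α < β → β ≤ (1 + δ) * R →
  ∀ η : ℝ, 0 < η → ∀ᶠ T in l,
    (NW T α β : ℝ) ≤ (gw α β + C * Real.exp (-(ε * R)) + η) * (T * Real.log T / (2 * Real.pi))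

/-- one-sided bounds for arbitrarily large `R` -/
def SpW (l : Filter ℝ) (δ ε C : ℝ) : Prop :=
  ∀ A : ℝ, ∃ R : ℝ, A ≤ R ∧ (LowW l δ ε C R ∨ UppW l δ ε C R)

/-- **sparse windows** -/
theorem finalS (I : Inp) (hSP : S_SPARSE) (l : Filter ℝ) [l.IsCountablyGenerated] (hl : l ≤ atTop)
    (δ ε C : ℝ) (hδ : 0 < δ) (hε : 0 < ε) (hAL : AL l) (hSW : SpW l δ ε C) : WC l := by
  have hoff := AL_X I hl hAL
  apply PP_WCU hl
  refine seq_form fun t ht => ?_
  have htop := ht.mono_right hl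
  obtain ⟨j0, C0, hmono, hbd, -⟩ := shift_seq I htop
  obtain ⟨μ, hμ0, hμ1, horth⟩ := orth_seq I.cell I.ubu I.dec I.ibp I.ibg I.blk2
    (htop.comp (tendsto_add_atTop_nat j0)) ((hoff.comp ht).comp (tendsto_add_atTop_nat j0))
  obtain ⟨hMT, hS⟩ := scale_seq hμ0 hμ1 (F := fun j => P (t (j + j0))) hmono hbd horth
  obtain ⟨K, hK, hb⟩ := win_boundsU
  have hK0 : Tendsto (fun T => 2 * K / X T) l (𝓝 0) :=
    (tendsto_const_nhds.div_atTop X_tendsto).mono_left hl
  have ht' : Tendsto (fun j => t (j + j0)) atTop l := ht.comp (tendsto_add_atTop_nat j0)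
  set C' : ℝ := 2 * max C 1 with hC'
  have hC'0 : 0 < C' := by
    have : (1 : ℝ) ≤ max C 1 := le_max_right _ _
    rw [hC']; linarith
  have h := core3G I.helly I.dec hSP hMT hS (C := C') (δ := δ) (ε := ε / μ) hC'0 hδ (by positivity)
    (by
      intro A
      obtain ⟨R, hR, hcase⟩ := hSW (max (A / μ) 1)
      have hR1 : 1 ≤ R := (le_max_right _ _).trans hR
      have hR2 : A / μ ≤ R := (le_max_left _ _).trans hR
      have hexp : ∀ x : ℝ, C * Real.exp x ≤ max C 1 * Real.exp x := fun x =>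
        mul_le_mul_of_nonneg_right (le_max_left _ _) (Real.exp_pos _).le
      have e0 : ε / μ * (μ * R) = ε * R := by field_simp
      have hAR : A ≤ μ * R := by
        rw [div_le_iff₀ hμ0] at hR2; linarith
      rcases hcase with h1 | h1
      · refine ⟨μ * R, 1, hAR, Or.inl rfl, fun u v hu huv hv η hη => ?_⟩
        have hu' : R < u / μ := by rw [lt_div_iff₀ hμ0]; linarith
        have huv' : u / μ < v / μ := by gcongr
        have hv' : v / μ < (1 + δ) * R := by rw [div_lt_iff₀ hμ0]; linarith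
        -- the left end is moved a little to the right
        set s : ℝ := min (η / 8) ((v / μ - u / μ) / 2) with hs
        have hs0 : 0 < s := lt_min (by positivity) (by linarith)
        have hs1 : s ≤ η / 8 := min_le_left _ _
        have hs2 : s ≤ (v / μ - u / μ) / 2 := min_le_right _ _
        have h2 : ∀ᶠ T in l, 2 * (G (v / μ) - G (u / μ)) - (C' * Real.exp (-(ε * R)) + η) ≤
            P T (v / μ) - P T (u / μ) := by
          have e3 : ∀ᶠ T in l, 2 * K / X T < η / 8 := hK0.eventually (gt_mem_nhds (by positivity))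
          filter_upwards [h1 (u / μ + s) (v / μ) (by linarith) (by linarith) hv'.le (η / 8)
            (by positivity), e3, hl (ev_small (v / μ)), hl (eventually_ge_atTop (10 : ℝ))]
            with T g1 g2 g3 g4
          obtain ⟨b1, b2⟩ := hb T (u / μ + s) (v / μ) s g4 (by linarith) (by linarith) hs0 g3
          rw [XT', gw_eq, ← le_div_iff₀ (W207.PR.X_pos g4)] at g1
          rw [add_sub_cancel_right] at b2
          have hGl := G_lip (show u / μ ≤ u / μ + s by linarith)
          have h5 := hexp (-(ε * R))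
          rw [hC']
          linarith
        filter_upwards [ht'.eventually h2] with j hj
        rw [e0]
        linarith
      · refine ⟨μ * R, -1, hAR, Or.inr rfl, fun u v hu huv hv η hη => ?_⟩
        have hu' : R < u / μ := by rw [lt_div_iff₀ hμ0]; linarith
        have huv' : u / μ < v / μ := by gcongr
        have hv' : v / μ < (1 + δ) * R := by rw [div_lt_iff₀ hμ0]; linarith
        have h2 : ∀ᶠ T in l, P T (v / μ) - P T (u / μ) ≤
            2 * (G (v / μ) - G (u / μ)) + (C' * Real.exp (-(ε * R)) + η) := by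
          filter_upwards [h1 (u / μ) (v / μ) hu'.le huv' hv'.le (η / 2) (by positivity),
            hl (ev_small (v / μ)), hl (eventually_ge_atTop (10 : ℝ))] with T g1 g3 g4
          obtain ⟨b1, b2⟩ := hb T (u / μ) (v / μ) 1 g4 (by linarith) huv'.le one_pos g3
          rw [XT', gw_eq, ← div_le_iff₀ (W207.PR.X_pos g4)] at g1
          have h5 := hexp (-(ε * R))
          rw [hC']
          linarith
        filter_upwards [ht'.eventually h2] with j hj
        rw [e0]
        linarith)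
  intro u hu
  have h2 := h (μ * u) (by positivity)
  simp only [mul_div_cancel_left₀ _ hμ0.ne'] at h2
  exact (tendsto_add_atTop_iff_nat j0).1 h2

/-- the converse -/
theorem convS (I : Inp) (l : Filter ℝ) [l.IsCountablyGenerated] (hl : l ≤ atTop) (h : WC l) :
    AL l ∧ SpW l 1 1 0 := by
  refine ⟨(((finalU I l hl).2.1).1 (((finalU I l hl).1).2 (WC_Lower hl h))).1, fun A => ?_⟩
  refine ⟨max A 1, le_max_left _ _, Or.inl fun α β hα hαβ _ η hη => ?_⟩
  have hα0 : 0 < α := lt_of_lt_of_le one_pos ((le_max_right _ _).trans hα)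
  have h1 : ∀ᶠ T in l, gw α β - η < NW T α β / (T * Real.log T / (2 * Real.pi)) :=
    (h α β hα0 hαβ).eventually (lt_mem_nhds (by linarith))
  filter_upwards [h1, hl (eventually_ge_atTop (10 : ℝ))] with T g1 g2
  rw [XT'] at g1 ⊢
  rw [lt_div_iff₀ (W207.PR.X_pos g2)] at g1
  rw [zero_mul, sub_zero]
  exact g1.le

end W207.SW
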