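import Pool.Agent.W207.SW.CoreE

/-! # Sparse windows: the zeta zeros -/

set_option autoImplicit false

open Complex Filter Topology Set MeasureTheory
open scoped BigOperators

namespace W207.SW

open W207.PR W207.PU

/-! ### Cumulative form -/

/-- lower bounds on `[R, (1+δ)R]` -/
def LowC (l : Filter ℝ) (δ ε C R : ℝ) : Prop := ∀ a : ℝ, R ≤ a → a ≤ (1 + δ) * R →
  ∀ η : ℝ, 0 < η → ∀ᶠ T in l,
    (gg a - C * Real.exp (-(ε * R)) - η) * (T * Real.log T) ≤ Nst T a

/-- upper bounds on `[R, (1+δ)R]` -/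
def UppC (l : Filter ℝ) (δ ε C R : ℝ) : Prop := ∀ a : ℝ, R ≤ a → a ≤ (1 + δ) * R →
  ∀ η : ℝ, 0 < η → ∀ᶠ T in l, (Nst T a : ℝ) + Neu T / 2 ≤
    (gg a + 1 / (4 * Real.pi) + C * Real.exp (-(ε * R)) + η) * (T * Real.log T)

/-- one-sided bounds for arbitrarily large `R` -/
def SpC (l : Filter ℝ) : Prop := ∃ C δ ε : ℝ, 0 < δ ∧ 0 < ε ∧
  ∀ A : ℝ, ∃ R : ℝ, A ≤ R ∧ (LowC l δ ε C R ∨ UppC l δ ε C R)

theorem ofC (I : Inp) (hSP : S_SPARSEE) (hOK : S_ODDK) (l : Filter ℝ) [l.IsCountablyGenerated]
    (hl : l ≤ atTop) (hAL : AL l) (hSW : SpC l) : PP l := by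
  have hpi := Real.pi_pos
  obtain ⟨C, δ, ε, hδ, hε, hSW⟩ := hSW
  have hoff := AL_X I hl hAL
  refine seq_form fun t ht => ?_
  have htop := ht.mono_right hl
  obtain ⟨j0, C0, hmono, hbd, -⟩ := shift_seq I htop
  obtain ⟨μ, hμ0, hμ1, horth⟩ := orth_seq I.cell I.ubu I.dec I.ibp I.ibg I.blk2
    (htop.comp (tendsto_add_atTop_nat j0)) ((hoff.comp ht).comp (tendsto_add_atTop_nat j0))
  obtain ⟨hMT, hS⟩ := scale_seq hμ0 hμ1 (F := fun j => P (t (j + j0))) hmono hbd horth
  have ht' : Tendsto (fun j => t (j + j0)) atTop l := ht.comp (tendsto_add_atTop_nat j0)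
  set C' : ℝ := 4 * Real.pi * max C 1 with hC'
  have hC'0 : 0 < C' := by
    have : (0 : ℝ) < max C 1 := lt_of_lt_of_le one_pos (le_max_right _ _)
    rw [hC']; positivity
  have hexp : ∀ x : ℝ, 4 * Real.pi * C * Real.exp x ≤ C' * Real.exp x := fun x =>
    mul_le_mul_of_nonneg_right (by
      rw [hC']
      exact mul_le_mul_of_nonneg_left (le_max_left _ _) (by positivity)) (Real.exp_pos _).le
  have h := core4G I.helly I.dec hSP hOK hMT hS (C := C') (δ := δ) (ε := ε / μ) hC'0 hδ
    (by positivity) (by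
      intro A
      obtain ⟨R, hR, hcase⟩ := hSW (max (A / μ) 1)
      have hR1 : 1 ≤ R := (le_max_right _ _).trans hR
      have hR2 : A / μ ≤ R := (le_max_left _ _).trans hR
      have e0 : ε / μ * (μ * R) = ε * R := by field_simp
      have hAR : A ≤ μ * R := by
        rw [div_le_iff₀ hμ0] at hR2; linarith
      rcases hcase with h1 | h1
      · refine ⟨μ * R, 1, hAR, Or.inl rfl, fun u hu hv η hη => ?_⟩
        have hu' : R < u / μ := by rw [lt_div_iff₀ hμ0]; linarith
        have hv' : u / μ < (1 + δ) * R := by rw [div_lt_iff₀ hμ0]; linarith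
        have h2 : ∀ᶠ T in l, -(C' * Real.exp (-(ε * R)) + η) ≤ 1 * D T (u / μ) := by
          have g1 := h1 (u / μ) hu'.le hv'.le (η / (16 * Real.pi)) (by positivity)
          have g2 : ∀ᶠ T in l, -(η / 4) < P T (u / μ) -
              (Neu T / X T + 2 * (Nst T (u / μ) / X T)) :=
            ((L1U (u / μ) (by linarith)).mono_left hl).eventually (lt_mem_nhds (by linarith))
          filter_upwards [g1, g2, hl (Neu_lower (η / 4) (by positivity)),
            hl (eventually_ge_atTop (10 : ℝ))] with T g1 g2 g3 g4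
          have hX := W207.PR.X_pos g4
          rw [XT, gg_eq] at g1
          have g5 : (G (u / μ) - 2 * Real.pi * C * Real.exp (-(ε * R)) - η / 8) ≤
              Nst T (u / μ) / X T := by
            rw [le_div_iff₀ hX]
            refine le_trans (le_of_eq ?_) g1
            field_simp
            ring
          have g6 := hexp (-(ε * R))
          unfold D
          linarith
        filter_upwards [ht'.eventually h2] with j hj
        rw [e0]
        exact hj
      · refine ⟨μ * R, -1, hAR, Or.inr rfl, fun u hu hv η hη => ?_⟩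
        have hu' : R < u / μ := by rw [lt_div_iff₀ hμ0]; linarith
        have hv' : u / μ < (1 + δ) * R := by rw [div_lt_iff₀ hμ0]; linarith
        have h2 : ∀ᶠ T in l, -(C' * Real.exp (-(ε * R)) + η) ≤ -1 * D T (u / μ) := by
          have g1 := h1 (u / μ) hu'.le hv'.le (η / (16 * Real.pi)) (by positivity)
          have g2 : ∀ᶠ T in l, P T (u / μ) - (Neu T / X T + 2 * (Nst T (u / μ) / X T)) < η / 4 :=
            ((L1U (u / μ) (by linarith)).mono_left hl).eventually (gt_mem_nhds (by linarith))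
          filter_upwards [g1, g2, hl (eventually_ge_atTop (10 : ℝ))] with T g1 g2 g4
          have hX := W207.PR.X_pos g4
          rw [XT, gg_eq] at g1
          have g5 : (Nst T (u / μ) / X T : ℝ) + Neu T / X T / 2 ≤
              (G (u / μ) + 1 / 2 + 2 * Real.pi * C * Real.exp (-(ε * R)) + η / 8) := by
            have e1 : (Nst T (u / μ) / X T : ℝ) + Neu T / X T / 2 =
                (Nst T (u / μ) + Neu T / 2) / X T := by
              field_simp
            rw [e1, div_le_iff₀ hX]
            refine g1.trans (le_of_eq ?_)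
            field_simp
            ring
          have g6 := hexp (-(ε * R))
          unfold D
          linarith
        filter_upwards [ht'.eventually h2] with j hj
        rw [e0]
        exact hj)
  intro u hu
  have h2 := h (μ * u) (by positivity)
  simp only [mul_div_cancel_left₀ _ hμ0.ne'] at h2
  exact (tendsto_add_atTop_iff_nat j0).1 h2

/-- **sparse heights, cumulative form** -/
theorem finalC (I : Inp) (hSP : S_SPARSEE) (hOK : S_ODDK) (l : Filter ℝ) [l.IsCountablyGenerated]
    (hl : l ≤ atTop) : PCC l ↔ (AL l ∧ SpC l) := by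
  constructor
  · intro h
    refine ⟨(((finalU I l hl).2.1).1 h).1, 0, 1, 1, one_pos, one_pos, fun A => ?_⟩
    refine ⟨max A 1, le_max_left _ _, Or.inl fun a ha _ η hη => ?_⟩
    have ha0 : 0 < a := lt_of_lt_of_le one_pos ((le_max_right _ _).trans ha)
    have h1 : ∀ᶠ T in l, gg a - η < Nst T a / (T * Real.log T) :=
      (h a ha0).eventually (lt_mem_nhds (by linarith))
    filter_upwards [h1, hl (eventually_ge_atTop (10 : ℝ))] with T g1 g2
    have hX := W207.PR.X_pos g2
    have hpos : 0 < T * Real.log T := by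
      rw [XT]; positivity
    rw [lt_div_iff₀ hpos] at g1
    rw [zero_mul, sub_zero]
    exact g1.le
  · rintro ⟨hAL, h⟩
    exact PP_PCCU hl (ofC I hSP hOK l hl hAL h)

/-! ### Windows of fixed lengths -/

/-- lower bounds for the windows of length `ℓ` at `[R, (1+δ)R]` -/
def LowL (l : Filter ℝ) (ℓ δ ε C R : ℝ) : Prop := ∀ a : ℝ, R ≤ a → a ≤ (1 + δ) * R →
  ∀ η : ℝ, 0 < η → ∀ᶠ T in l,
    (gw a (a + ℓ) - C * Real.exp (-(ε * R)) - η) * (T * Real.log T / (2 * Real.pi)) ≤
      NW T a (a + ℓ)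

/-- upper bounds for the windows of length `ℓ` at `[R, (1+δ)R]` -/
def UppL (l : Filter ℝ) (ℓ δ ε C R : ℝ) : Prop := ∀ a : ℝ, R ≤ a → a ≤ (1 + δ) * R →
  ∀ η : ℝ, 0 < η → ∀ᶠ T in l, (NW T a (a + ℓ) : ℝ) ≤
    (gw a (a + ℓ) + C * Real.exp (-(ε * R)) + η) * (T * Real.log T / (2 * Real.pi))

/-- one-sided bounds for the windows of length `ℓ` at sparse places -/
def SpL (l : Filter ℝ) (ℓ : ℝ) : Prop := ∃ C δ ε : ℝ, 0 < δ ∧ 0 < ε ∧
  ∀ A : ℝ, ∃ R : ℝ, A ≤ R ∧ (LowL l ℓ δ ε C R ∨ UppL l ℓ δ ε C R)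

/-- **windows of fixed lengths at sparse places** -/
theorem finalL (I : Inp) (J : InpW) (hSP : S_SPARSEE) (l : Filter ℝ) [l.IsCountablyGenerated]
    (hl : l ≤ atTop) (L : Set ℝ) (hL : ∀ ℓ ∈ L, 0 < ℓ)
    (hdense : Dense (AddSubgroup.closure L : Set ℝ)) :
    WC l ↔ (AL l ∧ ∀ ℓ ∈ L, SpL l ℓ) := by
  constructor
  · intro h
    have hPCC := ((finalU I l hl).1).2 (WC_Lower hl h)
    refine ⟨(((finalU I l hl).2.1).1 hPCC).1, fun ℓ hℓ => ?_⟩
    refine ⟨0, 1, 1, one_pos, one_pos, fun A => ?_⟩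
    refine ⟨max A 1, le_max_left _ _, Or.inl fun a ha _ η hη => ?_⟩
    have ha0 : 0 < a := lt_of_lt_of_le one_pos ((le_max_right _ _).trans ha)
    have h1 : ∀ᶠ T in l, gw a (a + ℓ) - η < NW T a (a + ℓ) / (T * Real.log T / (2 * Real.pi)) :=
      (h a (a + ℓ) ha0 (by linarith [hL ℓ hℓ])).eventually (lt_mem_nhds (by linarith))
    filter_upwards [h1, hl (eventually_ge_atTop (10 : ℝ))] with T g1 g2
    rw [XT'] at g1 ⊢
    rw [lt_div_iff₀ (W207.PR.X_pos g2)] at g1
    rw [zero_mul, sub_zero]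
    exact g1.le
  · rintro ⟨hAL, h⟩
    have hoff := AL_X I hl hAL
    apply PP_WCU hl
    refine seq_form fun t ht => ?_
    have htop := ht.mono_right hl
    obtain ⟨j0, C0, hmono, hbd, -⟩ := shift_seq I htop
    obtain ⟨μ, hμ0, hμ1, horth⟩ := orth_seq I.cell I.ubu I.dec I.ibp I.ibg I.blk2
      (htop.comp (tendsto_add_atTop_nat j0)) ((hoff.comp ht).comp (tendsto_add_atTop_nat j0))
    obtain ⟨hMT, hS⟩ := scale_seq hμ0 hμ1 (F := fun j => P (t (j + j0))) hmono hbd horth
    obtain ⟨K, hK, hb⟩ := win_boundsU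
    have hK0 : Tendsto (fun T => 2 * K / X T) l (𝓝 0) :=
      (tendsto_const_nhds.div_atTop X_tendsto).mono_left hl
    have ht' : Tendsto (fun j => t (j + j0)) atTop l := ht.comp (tendsto_add_atTop_nat j0)
    set L' : Set ℝ := (fun x => μ * x) '' L with hL'
    have hL'0 : ∀ ℓ ∈ L', 0 < ℓ := by
      rintro _ ⟨ℓ, hℓ, rfl⟩
      exact mul_pos hμ0 (hL ℓ hℓ)
    have hd' : Dense (AddSubgroup.closure L' : Set ℝ) := by
      have h1 : (AddSubgroup.closure L' : Set ℝ) =
          (fun x => μ * x) '' (AddSubgroup.closure L : Set ℝ) := by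
        have h2 := AddMonoidHom.map_closure (AddMonoidHom.mulLeft μ) L
        have h3 : ((AddSubgroup.closure L).map (AddMonoidHom.mulLeft μ) : Set ℝ) =
          (AddSubgroup.closure ((AddMonoidHom.mulLeft μ) '' L) : Set ℝ) := by rw [h2]
        rw [AddSubgroup.coe_map] at h3
        exact h3.symm
      rw [h1]
      apply DenseRange.dense_image _ (by fun_prop) hdense
      apply Function.Surjective.denseRange
      intro y
      exact ⟨y / μ, by field_simp⟩
    have h := core5G I.helly I.dec hSP J.shift J.diff J.dense hMT hS L' hL'0 hd' (by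
      rintro _ ⟨ℓ, hℓ, rfl⟩
      have hℓ0 := hL ℓ hℓ
      obtain ⟨C, δ, ε, hδ, hε, hA⟩ := h ℓ hℓ
      have hm : (0 : ℝ) < 2 * max C 1 := by
        have : (0 : ℝ) < max C 1 := lt_of_lt_of_le one_pos (le_max_right _ _)
        positivity
      have hexp : ∀ x : ℝ, 2 * C * Real.exp x ≤ 2 * max C 1 * Real.exp x := fun x =>
        mul_le_mul_of_nonneg_right (by linarith [le_max_left C 1]) (Real.exp_pos _).le
      refine ⟨2 * max C 1, δ, ε / μ, hm, hδ, by positivity, fun A => ?_⟩
      obtain ⟨R, hR, hcase⟩ := hA (max (A / μ) 1)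
      have hR1 : 1 ≤ R := (le_max_right _ _).trans hR
      have hR2 : A / μ ≤ R := (le_max_left _ _).trans hR
      have e0 : ε / μ * (μ * R) = ε * R := by field_simp
      have hAR : A ≤ μ * R := by
        rw [div_le_iff₀ hμ0] at hR2; linarith
      rcases hcase with h1 | h1
      · refine ⟨μ * R, 1, hAR, Or.inl rfl, fun a ha ha2 => limA_lower fun s hs η hη => ?_⟩
        have ha' : R < a / μ := by rw [lt_div_iff₀ hμ0]; linarith
        have ha2' : a / μ < (1 + δ) * R := by rw [div_lt_iff₀ hμ0]; linarith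
        have ha0 : 0 < a / μ := by linarith
        have h2 : ∀ᶠ T in l, 2 * (G (a / μ + ℓ) - G (a / μ)) -
            (2 * max C 1 * Real.exp (-(ε * R)) + η) ≤ P T (a / μ + ℓ) - P T (a / μ - s / μ) := by
          have e3 : ∀ᶠ T in l, 2 * K / X T < η / 2 := hK0.eventually (gt_mem_nhds (by positivity))
          filter_upwards [h1 (a / μ) ha'.le ha2'.le (η / 4) (by positivity), e3,
            hl (ev_small (a / μ + ℓ)), hl (eventually_ge_atTop (10 : ℝ))] with T g1 g2 g3 g4
          obtain ⟨b1, b2⟩ := hb T (a / μ) (a / μ + ℓ) (s / μ) g4 (by positivity) (by linarith)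
            (by positivity) g3
          rw [XT', gw_eq, ← le_div_iff₀ (W207.PR.X_pos g4)] at g1
          have g5 := hexp (-(ε * R))
          linarith
        filter_upwards [ht'.eventually h2] with j hj
        have e1 : (a + μ * ℓ) / μ = a / μ + ℓ := by field_simp
        have e2 : (a - s) / μ = a / μ - s / μ := by ring
        simp only [e0, e1, e2]
        linarith
      · refine ⟨μ * R, -1, hAR, Or.inr rfl, fun a ha ha2 => limA_upper fun η hη => ?_⟩
        have ha' : R < a / μ := by rw [lt_div_iff₀ hμ0]; linarith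
        have ha2' : a / μ < (1 + δ) * R := by rw [div_lt_iff₀ hμ0]; linarith
        have ha0 : 0 < a / μ := by linarith
        have h2 : ∀ᶠ T in l, P T (a / μ + ℓ) - P T (a / μ) ≤
            2 * (G (a / μ + ℓ) - G (a / μ)) + (2 * max C 1 * Real.exp (-(ε * R)) + η) := by
          filter_upwards [h1 (a / μ) ha'.le ha2'.le (η / 4) (by positivity),
            hl (ev_small (a / μ + ℓ)), hl (eventually_ge_atTop (10 : ℝ))] with T g1 g3 g4
          obtain ⟨b1, b2⟩ := hb T (a / μ) (a / μ + ℓ) 1 g4 (by positivity) (by linarith) one_pos g3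
          rw [XT', gw_eq, ← div_le_iff₀ (W207.PR.X_pos g4)] at g1
          have g5 := hexp (-(ε * R))
          linarith
        filter_upwards [ht'.eventually h2] with j hj
        have e1 : (a + μ * ℓ) / μ = a / μ + ℓ := by field_simp
        simp only [e0, e1]
        linarith)
    intro u hu
    have h2 := h (μ * u) (by positivity)
    simp only [mul_div_cancel_left₀ _ hμ0.ne'] at h2
    exact (tendsto_add_atTop_iff_nat j0).1 h2

end W207.SW
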