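import Pool.Agent.W207.SW.FinE
import Pool.Agent.W207.PU.All
import Pool.Agent.W303.SW.BLT
import Pool.Agent.W440.SW.BLM
import Pool.Agent.W515.SW.BLCI
import Pool.Agent.W15.SW.KB
import Pool.Agent.W333.SW.KG
import Pool.Agent.W293.SW.Exte
import Pool.Agent.W975.SW.SmlE
import Pool.Agent.W333.SW.FFE
import Pool.Agent.W293.SW.Alle
import Pool.Agent.W460.SW.FEXTE
import Pool.Agent.W143.SW.SparseE
import Pool.Agent.W978.SW.Oddk
import Pool.Agent.W334.SW.GA1
import Pool.Agent.W721.SW.GA2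
import Pool.Agent.W397.SW.PL
import Pool.Agent.W414.SW.Cir
import Pool.Agent.W654.SW.Plg
import Pool.Agent.W22.SW.OneE

/-! # Sparse windows: the final theorems -/

set_option autoImplicit false

open Complex Filter Topology Set MeasureTheory
open scoped BigOperators

namespace W207.SW

open W207.PR W207.PU

theorem blt : S_BLT := Pool.Agent.W303.SW.main
theorem blm : S_BLM := W440.SW.blm
theorem blc : S_BLC := Pool.Agent.W515.SW.BLCI.blc
theorem bli : S_BLI := Pool.Agent.W515.SW.BLCI.bli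
theorem kb : S_KB := Pool.Agent.W15.SW.kb blt blm
theorem kg : S_KG := W333.SW.kg bli kb
theorem exte : S_EXTE := Pool.Agent.W293.SW.exte
theorem smle : S_SMLE := W975.SW.main exte blc kg
theorem ga : S_GA := fun Λ hΛ => by
  obtain ⟨h1, h2, h3⟩ := W334.SW.GA1 Λ hΛ
  obtain ⟨h4, h5⟩ := Pool.Agent.W721.SW.GA2 Λ hΛ
  exact ⟨h1, h2, h4, h5, h3⟩
theorem plg : S_PLG := Pool.Agent.W654.SW.plg Pool.Agent.W721.SW.GB (Pool.Agent.W397.SW.pl ga)
  W414.SW.cir
theorem fexte : S_FEXTE := Pool.Agent.W460.SW.fexte smle W333.SW.ffe plg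
theorem onee : S_ONEE := W22.SW.OneE.main exte bli kb
/-- **a one-sided, stable Beurling gap theorem** -/
theorem sparsee : S_SPARSEE := Pool.Agent.W143.SW.sparseE onee fexte Pool.Agent.W293.SW.All.alle

theorem mainC (l : Filter ℝ) [l.IsCountablyGenerated] (hl : l ≤ atTop) :
    PCC l ↔ (AL l ∧ SpC l) := finalC inp sparsee Pool.Agent.W978.SW.oddk l hl

theorem mainL (l : Filter ℝ) [l.IsCountablyGenerated] (hl : l ≤ atTop)
    (L : Set ℝ) (hL : ∀ ℓ ∈ L, 0 < ℓ) (hd : Dense (AddSubgroup.closure L : Set ℝ)) :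
    WC l ↔ (AL l ∧ ∀ ℓ ∈ L, SpL l ℓ) := finalL inp inpW sparsee l hl L hL hd

end W207.SW
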